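import Pool.Agent.H3R4.TAM.Poset

/-!
# Filters meeting countably many dense sets and containing uncountably many given conditions

The idea of the proof is due to Todorcevic and Velickovic.
-/

set_option autoImplicit false

namespace Pool.Agent.H3R4.Pre

open Set Pool.Agent.Helper126

universe u

section Colour

variable {ι : Type u} [LinearOrder ι] (e : ι → ι → ℕ)

/-- the symmetric colouring given by injections of the initial segments into `ℕ` -/
noncomputable def col (α β : ι) : ℕ := if α < β then e β α else e α β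

/-- the maximal colour of a pair from `a` -/
noncomputable def cc (a : Finset ι) : ℕ := (a ×ˢ a).sup fun p => col e p.1 p.2

variable {e}

lemma col_le_cc {a : Finset ι} {α β : ι} (hα : α ∈ a) (hβ : β ∈ a) : col e α β ≤ cc e a := by
  have h : (α, β) ∈ a ×ˢ a := Finset.mem_product.2 ⟨hα, hβ⟩
  exact Finset.le_sup (f := fun p : ι × ι => col e p.1 p.2) h

lemma exists_large (he : ∀ β, InjOn (e β) (Iio β)) (hι : ∀ β : ι, (Iio β).Countable)
    {I : Type*} (b : I → Finset ι) (J : Set I) (hJ : ¬ J.Countable)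
    (hb : ∀ i ∈ J, ∀ j ∈ J, i ≠ j → ∀ α ∈ b i, α ∉ b j) (n : ℕ) :
    ∃ i ∈ J, ∃ j ∈ J, i ≠ j ∧ ∀ α ∈ b i, ∀ β ∈ b j, n ≤ col e α β := by
  classical
  have hinf : J.Infinite := fun h => hJ h.countable
  have := hinf.to_subtype
  let s : ℕ → J := Infinite.natEmbedding J
  have hs : Function.Injective s := (Infinite.natEmbedding J).injective
  -- a countable set of bad points
  let D : Set ι := ⋃ m : ℕ, ⋃ α ∈ (b (s m).1 : Set ι), Iic α
  have hD : D.Countable := by
    refine countable_iUnion fun m => (Finset.countable_toSet _).biUnion fun α _ => ?_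
    rw [← Iio_insert]
    exact (hι α).insert α
  have h1 : ({j ∈ J | ∃ α ∈ b j, α ∈ D} ∪ range (fun m => (s m).1)).Countable := by
    refine Countable.union ?_ (countable_range _)
    have h2 : {j ∈ J | ∃ α ∈ b j, α ∈ D} = ⋃ α ∈ D, {j ∈ J | α ∈ b j} := by
      ext j
      simp only [mem_iUnion, mem_ofPred_eq, exists_prop]
      constructor
      · rintro ⟨h, α, h', h''⟩; exact ⟨α, h'', h, h'⟩
      · rintro ⟨α, h'', h, h'⟩; exact ⟨h, α, h', h''⟩
    rw [h2]
    refine hD.biUnion fun α _ => ?_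
    refine Set.Subsingleton.countable ?_
    rintro i ⟨hi, hi'⟩ j ⟨hj, hj'⟩
    by_contra hne
    exact hb i hi j hj hne α hi' hj'
  obtain ⟨j, hjJ, hj⟩ : ∃ j ∈ J, j ∉ {j ∈ J | ∃ α ∈ b j, α ∈ D} ∪ range (fun m => (s m).1) := by
    by_contra hcon
    push Not at hcon
    exact hJ (h1.mono hcon)
  have hj1 : ∀ β ∈ b j, β ∉ D := fun β hβ h => hj (Or.inl ⟨hjJ, β, hβ, h⟩)
  have hj2 : ∀ m, (s m).1 ≠ j := fun m h => hj (Or.inr ⟨m, h⟩)
  have hlt : ∀ m, ∀ α ∈ b (s m).1, ∀ β ∈ b j, α < β := by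
    intro m α hα β hβ
    by_contra hcon
    exact hj1 β hβ (mem_iUnion.2 ⟨m, mem_biUnion (Finset.mem_coe.2 hα) (not_lt.1 hcon)⟩)
  -- the finite set of points with a small colour
  let B : Set ι := ⋃ β ∈ (b j : Set ι), {α ∈ Iio β | e β α < n}
  have hB : B.Finite := by
    refine (Finset.finite_toSet _).biUnion fun β _ => ?_
    refine Set.Finite.of_finite_image ((Set.finite_lt_nat n).subset ?_)
      ((he β).mono fun α hα => hα.1)
    rintro _ ⟨α, hα, rfl⟩
    exact hα.2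
  have h3 : {m : ℕ | ∃ α ∈ b (s m).1, α ∈ B}.Finite := by
    have h4 : {m : ℕ | ∃ α ∈ b (s m).1, α ∈ B} = ⋃ α ∈ B, {m : ℕ | α ∈ b (s m).1} := by
      ext m
      simp only [mem_iUnion, mem_ofPred_eq, exists_prop]
      constructor
      · rintro ⟨α, h', h''⟩; exact ⟨α, h'', h'⟩
      · rintro ⟨α, h'', h'⟩; exact ⟨α, h', h''⟩
    rw [h4]
    refine hB.biUnion fun α _ => ?_
    refine Set.Subsingleton.finite ?_
    intro m hm m' hm'
    by_contra hne
    exact hb _ (s m).2 _ (s m').2 (fun h => hne (hs (Subtype.ext h))) α hm hm'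
  obtain ⟨m, hm⟩ : ∃ m : ℕ, m ∉ {m : ℕ | ∃ α ∈ b (s m).1, α ∈ B} := by
    by_contra hcon
    push Not at hcon
    exact Set.infinite_univ (h3.subset fun m _ => hcon m)
  refine ⟨(s m).1, (s m).2, j, hjJ, hj2 m, fun α hα β hβ => ?_⟩
  have h5 := hlt m α hα β hβ
  rw [col, if_pos h5]
  by_contra hcon
  exact hm ⟨α, hα, mem_biUnion (Finset.mem_coe.2 hβ) ⟨h5, not_le.1 hcon⟩⟩

end Colour

section Main

variable {P : Type u} [Preorder P] (A : ℕ → ℕ → P) {ι : Type u} [LinearOrder ι] (p : ι → P)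
  (e : ι → ι → ℕ)

/-- the promise: some lower bound of the `p γ`, `γ ∈ a`, decides `card a - 1` coordinates of the
generic real, with bounds given by the colouring -/
def Good (a : Finset ι) : Prop :=
  ∃ (q : P) (t : ℕ → ℕ), (∀ γ ∈ a, q ≤ p γ) ∧
    ∀ l, l + 1 < a.card → q ≤ A l (t l) ∧ ∀ a' ⊆ a, l + 1 < a'.card → t l ≤ cc e a'

/-- the partial order of good finite sets, larger sets being stronger -/
def RR : Type u := {a : Finset ι // Good A p e a}

instance : Preorder (RR A p e) where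
  le a b := b.1 ⊆ a.1
  le_refl a := Finset.Subset.refl _
  le_trans a b c h h' := h'.trans h

variable {A p e}

lemma Good.mono {a b : Finset ι} (h : Good A p e a) (hb : b ⊆ a) : Good A p e b := by
  obtain ⟨q, t, h1, h2⟩ := h
  refine ⟨q, t, fun γ hγ => h1 γ (hb hγ), fun l hl => ?_⟩
  obtain ⟨h3, h4⟩ := h2 l (hl.trans_le (Finset.card_le_card hb))
  exact ⟨h3, fun a' ha' => h4 a' (ha'.trans hb)⟩

lemma good_singleton (γ : ι) : Good A p e {γ} := by
  refine ⟨p γ, fun _ => 0, fun δ hδ => ?_, fun l hl => ?_⟩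
  · rw [Finset.mem_singleton.1 hδ]
  · rw [Finset.card_singleton] at hl
    omega

lemma extend (hA : ∀ n q, ∃ k q', q' ≤ q ∧ q' ≤ A n k) (k0 K : ℕ) (q : P) (t : ℕ → ℕ)
    (h : ∀ l < k0, q ≤ A l (t l)) :
    ∃ (q' : P) (t' : ℕ → ℕ), q' ≤ q ∧ (∀ l < k0, t' l = t l) ∧ ∀ l < K, q' ≤ A l (t' l) := by
  classical
  induction K with
  | zero => exact ⟨q, t, le_refl q, fun _ _ => rfl, by simp⟩
  | succ K ih =>
    obtain ⟨q', t', h1, h2, h3⟩ := ih
    by_cases hK : K < k0
    · refine ⟨q', t', h1, h2, fun l hl => ?_⟩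
      rcases Nat.lt_succ_iff_lt_or_eq.1 hl with h4 | h4
      · exact h3 l h4
      · subst h4
        rw [h2 l hK]
        exact h1.trans (h l hK)
    · obtain ⟨k, q'', h4, h5⟩ := hA K q'
      refine ⟨q'', Function.update t' K k, h4.trans h1, fun l hl => ?_, fun l hl => ?_⟩
      · rw [Function.update_of_ne (by omega)]
        exact h2 l hl
      · rcases Nat.lt_succ_iff_lt_or_eq.1 hl with h6 | h6
        · rw [Function.update_of_ne (by omega)]
          exact h4.trans (h3 l h6)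
        · subst h6
          rw [Function.update_self]
          exact h5

lemma RR_ccc (T : TAM.{u}) (hccc : ∀ S : Set P, ¬ S.Countable →
      ∃ r ∈ S, ∃ s ∈ S, r ≠ s ∧ ∃ q, q ≤ r ∧ q ≤ s)
    (hA : ∀ n q, ∃ k q', q' ≤ q ∧ q' ≤ A n k)
    (he : ∀ β, InjOn (e β) (Iio β)) (hι : ∀ β : ι, (Iio β).Countable)
    (S : Set (RR A p e)) (hS : ¬ S.Countable) :
    ∃ r ∈ S, ∃ s ∈ S, r ≠ s ∧ ∃ q, q ≤ r ∧ q ≤ s := by
  classical
  obtain ⟨k, hk⟩ := uncountable_fiber (fun a : RR A p e => a.1.card) S hS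
  have hwit : ∀ a : RR A p e, ∃ (q : P) (t : ℕ → ℕ), (∀ γ ∈ a.1, q ≤ p γ) ∧
      (∀ l < 2 * a.1.card, q ≤ A l (t l)) ∧
      ∀ l, l + 1 < a.1.card → ∀ a' ⊆ a.1, l + 1 < a'.card → t l ≤ cc e a' := by
    intro a
    obtain ⟨q, t, h1, h2⟩ := a.2
    obtain ⟨q', t', h3, h4, h5⟩ := extend hA (a.1.card - 1) (2 * a.1.card) q t
      (fun l hl => (h2 l (by omega)).1)
    refine ⟨q', t', fun γ hγ => h3.trans (h1 γ hγ), h5, fun l hl a' ha' hl' => ?_⟩
    rw [h4 l (by omega)]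
    exact (h2 l hl).2 a' ha' hl'
  choose q t h1 h2 h3 using hwit
  obtain ⟨t0, ht0⟩ := uncountable_fiber (fun (a : RR A p e) (l : Fin (2 * k)) => t a l) _ hk
  obtain ⟨J3, hJ3, hJ3u, hlb⟩ := TAM.poset T hccc q _ ht0
  obtain ⟨J4, r, hJ4, hJ4u, hr, hdel⟩ := delta_system (fun a : RR A p e => a.1) J3 hJ3u
  obtain ⟨a, ha, b, hb, hab, hbig⟩ := exists_large he hι (fun a : RR A p e => a.1 \ r) J4 hJ4u
    (by
      intro i hi j hj hij α hα hα'
      rw [Finset.mem_sdiff] at hα hα'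
      exact hα.2 (hdel i hi j hj hij α hα.1 hα'.1))
    (Finset.univ.sup t0)
  have haS : a ∈ S ∧ a.1.card = k := (hJ3 (hJ4 ha)).1
  have hbS : b ∈ S ∧ b.1.card = k := (hJ3 (hJ4 hb)).1
  have hta : (fun l : Fin (2 * k) => t a l) = t0 := (hJ3 (hJ4 ha)).2
  have htb : (fun l : Fin (2 * k) => t b l) = t0 := (hJ3 (hJ4 hb)).2
  have htab : ∀ l, l < 2 * k → t a l = t b l := by
    intro l hl
    have h := congrFun (hta.trans htb.symm) ⟨l, hl⟩
    exact h
  have htle : ∀ l, l < 2 * k → t a l ≤ Finset.univ.sup t0 := by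
    intro l hl
    have h : t a l = t0 ⟨l, hl⟩ := congrFun hta ⟨l, hl⟩
    rw [h]
    exact Finset.le_sup (Finset.mem_univ _)
  obtain ⟨q0, hq0⟩ := hlb {a, b} (by
    rintro x (rfl | rfl)
    · exact hJ4 ha
    · exact hJ4 hb) ((finite_singleton b).insert a)
  have hqa : q0 ≤ q a := hq0 a (Or.inl rfl)
  have hqb : q0 ≤ q b := hq0 b (Or.inr rfl)
  have hgood : Good A p e (a.1 ∪ b.1) := by
    refine ⟨q0, t a, fun γ hγ => ?_, fun l hl => ?_⟩
    · rcases Finset.mem_union.1 hγ with h | h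
      · exact hqa.trans (h1 a γ h)
      · exact hqb.trans (h1 b γ h)
    · have hcard : (a.1 ∪ b.1).card ≤ 2 * k := by
        refine (Finset.card_union_le _ _).trans ?_
        rw [haS.2, hbS.2]; omega
      have hl2 : l < 2 * k := by omega
      refine ⟨hqa.trans (h2 a l (by rw [haS.2]; exact hl2)), fun a' ha' hl' => ?_⟩
      by_cases hsa : a' ⊆ a.1
      · exact h3 a l (hl'.trans_le (Finset.card_le_card hsa)) a' hsa hl'
      · by_cases hsb : a' ⊆ b.1
        · rw [htab l hl2]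
          exact h3 b l (hl'.trans_le (Finset.card_le_card hsb)) a' hsb hl'
        · obtain ⟨β, hβ, hβa⟩ := Finset.not_subset.1 hsa
          obtain ⟨α, hα, hαb⟩ := Finset.not_subset.1 hsb
          have hβb : β ∈ b.1 := (Finset.mem_union.1 (ha' hβ)).resolve_left hβa
          have hαa : α ∈ a.1 := (Finset.mem_union.1 (ha' hα)).resolve_right hαb
          have h4 := hbig α (Finset.mem_sdiff.2 ⟨hαa, fun h => hαb (hr b hb h)⟩) β
            (Finset.mem_sdiff.2 ⟨hβb, fun h => hβa (hr a ha h)⟩)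
          exact (htle l hl2).trans (h4.trans (col_le_cc hα hβ))
  exact ⟨a, haS.1, b, hbS.1, hab, ⟨a.1 ∪ b.1, hgood⟩, Finset.subset_union_left,
    Finset.subset_union_right⟩

/-- **Filters from (TAM).**  Let `P` be a ccc partial order, let `A n` (`n < ω`) be sequences which
are predense in `P`, and let `p` be an `ω₁`-sequence of conditions.  Then there are an uncountable
set `Y` and a real `x` such that the conditions `p γ` (`γ ∈ Y`) and `A n (x n)` (`n < ω`) form a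
centered family. -/
theorem exists_filter (T : TAM.{u}) (hccc : ∀ S : Set P, ¬ S.Countable →
      ∃ r ∈ S, ∃ s ∈ S, r ≠ s ∧ ∃ q, q ≤ r ∧ q ≤ s)
    (hA : ∀ n q, ∃ k q', q' ≤ q ∧ q' ≤ A n k)
    (hι : ∀ β : ι, (Iio β).Countable) (hunc : ¬ (univ : Set ι).Countable) :
    ∃ (Y : Set ι) (x : ℕ → ℕ), ¬ Y.Countable ∧
      ∀ F : Finset ι, (F : Set ι) ⊆ Y → ∀ m, ∃ q : P, (∀ γ ∈ F, q ≤ p γ) ∧
        ∀ i < m, q ≤ A i (x i) := by
  classical
  have he : ∀ β : ι, ∃ f : ι → ℕ, InjOn f (Iio β) := fun β => Set.countable_iff_exists_injOn.1 (hι β)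
  choose e he using he
  obtain ⟨Y, -, hY, hlb⟩ := TAM.poset T (R := RR A p e) (RR_ccc T hccc hA he hι)
    (fun γ : ι => (⟨{γ}, good_singleton γ⟩ : RR A p e)) univ hunc
  have hgood : ∀ F : Finset ι, (F : Set ι) ⊆ Y → Good A p e F := by
    intro F hF
    obtain ⟨q, hq⟩ := hlb (F : Set ι) hF F.finite_toSet
    refine Good.mono q.2 fun γ hγ => ?_
    exact hq γ hγ (Finset.mem_singleton_self γ)
  have hYinf : Y.Infinite := fun h => hY h.countable
  -- finite sets which bound the coordinates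
  have hw : ∀ l : ℕ, ∃ w : Finset ι, (w : Set ι) ⊆ Y ∧ w.card = l + 2 := fun l =>
    hYinf.exists_subset_card_eq (l + 2)
  choose w hwY hwc using hw
  let z : ℕ → ℕ := fun l => cc e (w l)
  let Tr : {F : Finset ι // (F : Set ι) ⊆ Y} × ℕ → Set (ℕ → ℕ) := fun s =>
    {x | (∀ l, x l ≤ z l) ∧ ∃ q : P, (∀ γ ∈ s.1.1, q ≤ p γ) ∧ ∀ i < s.2, q ≤ A i (x i)}
  have hcomp : IsCompact {x : ℕ → ℕ | ∀ l, x l ≤ z l} := by
    have h1 : IsCompact (Set.pi univ fun l => Iic (z l)) :=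
      isCompact_univ_pi fun l => (Set.finite_Iic (z l)).isCompact
    have h2 : (Set.pi univ fun l => Iic (z l)) = {x : ℕ → ℕ | ∀ l, x l ≤ z l} := by
      ext x
      constructor
      · intro h l; exact h l (mem_univ l)
      · intro h l _; exact h l
    rwa [h2] at h1
  have hclosed : ∀ s, IsClosed (Tr s) := by
    intro s
    refine hcomp.isClosed.inter ?_
    have h1 : Continuous fun (x : ℕ → ℕ) (i : Fin s.2) => x i :=
      continuous_pi fun i => continuous_apply _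
    have h2 : {x : ℕ → ℕ | ∃ q : P, (∀ γ ∈ s.1.1, q ≤ p γ) ∧ ∀ i < s.2, q ≤ A i (x i)} =
        (fun (x : ℕ → ℕ) (i : Fin s.2) => x i) ⁻¹' {y | ∃ q : P, (∀ γ ∈ s.1.1, q ≤ p γ) ∧
          ∀ i : Fin s.2, q ≤ A i (y i)} := by
      ext x
      constructor
      · rintro ⟨q, h3, h4⟩; exact ⟨q, h3, fun i => h4 i i.2⟩
      · rintro ⟨q, h3, h4⟩; exact ⟨q, h3, fun i hi => h4 ⟨i, hi⟩⟩
    show IsClosed {x : ℕ → ℕ | ∃ q : P, (∀ γ ∈ s.1.1, q ≤ p γ) ∧ ∀ i < s.2, q ≤ A i (x i)}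
    rw [h2]
    exact (isClosed_discrete _).preimage h1
  have hne : ∀ s, (Tr s).Nonempty := by
    intro s
    let G : Finset ι := s.1.1 ∪ (Finset.range s.2).biUnion w
    have hG : (G : Set ι) ⊆ Y := by
      intro γ hγ
      rcases Finset.mem_union.1 (Finset.mem_coe.1 hγ) with h | h
      · exact s.1.2 h
      · obtain ⟨l, _, hl⟩ := Finset.mem_biUnion.1 h
        exact hwY l hl
    obtain ⟨q, t, h1, h2⟩ := hgood G hG
    have hwG : ∀ l < s.2, w l ⊆ G := by
      intro l hl γ hγ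
      exact Finset.mem_union_right _ (Finset.mem_biUnion.2 ⟨l, Finset.mem_range.2 hl, hγ⟩)
    have hcard : ∀ l < s.2, l + 1 < G.card := by
      intro l hl
      have := Finset.card_le_card (hwG l hl)
      rw [hwc l] at this
      omega
    refine ⟨fun l => if l < s.2 then t l else 0, fun l => ?_, q, fun γ hγ =>
      h1 γ (Finset.mem_union_left _ hγ), fun i hi => ?_⟩
    · by_cases hl : l < s.2
      · simp only [hl, if_true]
        refine (h2 l (hcard l hl)).2 _ (hwG l hl) ?_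
        rw [hwc l]; omega
      · simp [hl]
    · simp only [hi, if_true]
      exact (h2 i (hcard i hi)).1
  have hdir : Directed (fun a b => b ⊆ a) Tr := by
    rintro ⟨⟨F, hF⟩, m⟩ ⟨⟨F', hF'⟩, m'⟩
    refine ⟨⟨⟨F ∪ F', by
      intro γ hγ
      rcases Finset.mem_union.1 (Finset.mem_coe.1 hγ) with h | h
      · exact hF h
      · exact hF' h⟩, max m m'⟩, ?_, ?_⟩
    · rintro x ⟨h1, q, h2, h3⟩
      exact ⟨h1, q, fun γ hγ => h2 γ (Finset.mem_union_left _ hγ), fun i hi =>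
        h3 i (hi.trans_le (le_max_left _ _))⟩
    · rintro x ⟨h1, q, h2, h3⟩
      exact ⟨h1, q, fun γ hγ => h2 γ (Finset.mem_union_right _ hγ), fun i hi =>
        h3 i (hi.trans_le (le_max_right _ _))⟩
  have : Nonempty ({F : Finset ι // (F : Set ι) ⊆ Y} × ℕ) := ⟨(⟨∅, by simp⟩, 0)⟩
  obtain ⟨x, hx⟩ := IsCompact.nonempty_iInter_of_directed_nonempty_isCompact_isClosed Tr hdir hne
    (fun s => hcomp.of_isClosed_subset (hclosed s) fun x hx => hx.1) hclosed
  refine ⟨Y, x, hY, fun F hF m => ?_⟩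
  exact (mem_iInter.1 hx (⟨F, hF⟩, m)).2

end Main

end Pool.Agent.H3R4.Pre
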