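import Pool.Agent.H3R4.TAM.Filter

/-!
# (TAM) and first countable Čech-complete spaces with the countable chain condition
-/

set_option autoImplicit false

namespace Pool.Agent.H3R4.Pre

open Set TopologicalSpace

universe u

lemma exists_predense {P : Type u} [Preorder P] [Nonempty P]
    (hccc : ∀ S : Set P, ¬ S.Countable → ∃ r ∈ S, ∃ s ∈ S, r ≠ s ∧ ∃ q, q ≤ r ∧ q ≤ s)
    (E : Set P) (hE : ∀ q, ∃ e ∈ E, e ≤ q) :
    ∃ A : ℕ → P, (∀ k, A k ∈ E) ∧ ∀ q, ∃ k q', q' ≤ q ∧ q' ≤ A k := by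
  obtain ⟨M, hM⟩ := zorn_subset {S : Set P | S ⊆ E ∧
      ∀ r ∈ S, ∀ s ∈ S, r ≠ s → ¬ ∃ q, q ≤ r ∧ q ≤ s} (by
    intro c hc hchain
    refine ⟨⋃₀ c, ⟨sUnion_subset fun s hs => (hc hs).1, ?_⟩, fun s hs => subset_sUnion_of_mem hs⟩
    rintro r ⟨t, ht, hr⟩ s ⟨t', ht', hs⟩ hne
    rcases hchain.total ht ht' with h | h
    · exact (hc ht').2 r (h hr) s hs hne
    · exact (hc ht).2 r hr s (h hs) hne)
  have hcount : M.Countable := by
    by_contra hcon
    obtain ⟨r, hr, s, hs, hne, hq⟩ := hccc M hcon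
    exact hM.1.2 r hr s hs hne hq
  have hpre : ∀ q, ∃ r ∈ M, ∃ q', q' ≤ q ∧ q' ≤ r := by
    intro q
    obtain ⟨e, he, heq⟩ := hE q
    by_contra hcon
    push Not at hcon
    have h1 : insert e M ∈ {S : Set P | S ⊆ E ∧
        ∀ r ∈ S, ∀ s ∈ S, r ≠ s → ¬ ∃ q, q ≤ r ∧ q ≤ s} := by
      refine ⟨insert_subset he hM.1.1, ?_⟩
      rintro r (rfl | hr) s (rfl | hs) hne
      · exact absurd rfl hne
      · rintro ⟨q', h2, h3⟩
        exact hcon s hs q' (h2.trans heq) h3
      · rintro ⟨q', h2, h3⟩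
        exact hcon r hr q' (h3.trans heq) h2
      · exact hM.1.2 r hr s hs hne
    have h2 : e ∈ M := hM.2 h1 (subset_insert _ _) (mem_insert _ _)
    exact hcon e h2 e heq le_rfl
  have hne : M.Nonempty := by
    obtain ⟨r, hr, _⟩ := hpre (Classical.arbitrary P)
    exact ⟨r, hr⟩
  obtain ⟨A, hA⟩ := hcount.exists_eq_range hne
  refine ⟨A, fun k => hM.1.1 (by rw [hA]; exact ⟨k, rfl⟩), fun q => ?_⟩
  obtain ⟨r, hr, q', h1, h2⟩ := hpre q
  rw [hA] at hr
  obtain ⟨k, rfl⟩ := hr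
  exact ⟨k, q', h1, h2⟩

section Elem

variable {X : Type u} [Nonempty X]

open Classical in
/-- a point of a nonempty set -/
noncomputable def pk (s : Set X) : X := if h : s.Nonempty then h.some else Classical.arbitrary X

lemma pk_mem {s : Set X} (h : s.Nonempty) : pk s ∈ s := by
  rw [pk, dif_pos h]; exact h.some_mem

variable [TopologicalSpace X] (B : X → ℕ → Set X)

/-- one step of the closing off process -/
noncomputable def NN (S : Set X) : Set X :=
  insert (pk (closure S)ᶜ) (S ∪ ⋃ d ∈ S, ⋃ d' ∈ S, ⋃ n : ℕ, ⋃ n' : ℕ, {pk (B d n ∩ B d' n')})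

variable {B}

lemma NN_countable {S : Set X} (hS : S.Countable) : (NN B S).Countable := by
  refine Countable.insert _ (hS.union ?_)
  exact hS.biUnion fun d _ => hS.biUnion fun d' _ => countable_iUnion fun n =>
    countable_iUnion fun n' => countable_singleton _

lemma subset_NN (S : Set X) : S ⊆ NN B S :=
  subset_union_left.trans (subset_insert _ _)

lemma pk_mem_NN (S : Set X) : pk (closure S)ᶜ ∈ NN B S := mem_insert _ _

lemma pk_mem_NN' {S : Set X} {d d' : X} (hd : d ∈ S) (hd' : d' ∈ S) (n n' : ℕ) :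
    pk (B d n ∩ B d' n') ∈ NN B S := by
  refine Or.inr (Or.inr ?_)
  simp only [mem_iUnion, mem_singleton_iff]
  exact ⟨d, hd, d', hd', n, n', rfl⟩

variable (B) {ι : Type u} [LinearOrder ι] [WellFoundedLT ι]

/-- the increasing sequence of countable sets -/
noncomputable def DD : ι → Set X :=
  WellFounded.fix (wellFounded_lt (α := ι)) fun α ih => ⋃ β : ι, ⋃ h : β < α, NN B (ih β h)

lemma DD_eq (α : ι) : DD B α = ⋃ β : ι, ⋃ _ : β < α, NN B (DD B β) := by
  rw [DD, WellFounded.fix_eq]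

lemma NN_subset_DD {α β : ι} (h : β < α) : NN B (DD B β) ⊆ DD B α := by
  rw [DD_eq B α]
  exact subset_iUnion₂ (s := fun (β : ι) (_ : β < α) => NN B (DD B β)) β h

lemma DD_mono {α β : ι} (h : β ≤ α) : DD B β ⊆ DD B α := by
  rcases h.eq_or_lt with rfl | h
  · exact subset_rfl
  · exact (subset_NN _).trans (NN_subset_DD B h)

lemma DD_countable (hι : ∀ β : ι, (Iio β).Countable) (α : ι) : (DD B α).Countable := by
  induction α using WellFoundedLT.induction with
  | ind α ih =>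
    rw [DD_eq]
    exact (hι α).biUnion fun β hβ => NN_countable (ih β hβ)

end Elem

lemma exists_gt_of_countable {ι : Type u} [LinearOrder ι] (hι : ∀ β : ι, (Iio β).Countable)
    {Y : Set ι} (hY : ¬ Y.Countable) {C : Set ι} (hC : C.Countable) :
    ∃ γ ∈ Y, ∀ α ∈ C, α < γ := by
  by_contra hcon
  push Not at hcon
  apply hY
  refine Countable.mono ?_ (hC.biUnion (t := fun α _ => Iic α) fun α _ => ?_)
  · intro γ hγ
    obtain ⟨α, hα, h⟩ := hcon γ hγ
    exact mem_biUnion hα h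
  · rw [← Iio_insert]; exact (hι α).insert α

lemma mk_Iio_lt_aleph (β : (Cardinal.aleph 1 : Cardinal.{u}).ord.ToType) :
    Cardinal.mk (Iio β) < Cardinal.aleph 1 := by
  have h := Cardinal.mk_Iio_lt β (by rw [Cardinal.mk_ord_toType, Ordinal.type_toType])
  rwa [Cardinal.mk_ord_toType] at h

/-- the general form: `X` is densely embedded in a compact Hausdorff space as a `G_δ` set -/
theorem main (T : TAM.{u}) {X : Type u} [TopologicalSpace X] [FirstCountableTopology X]
    (hc : CCC X) {K : Type u} [TopologicalSpace K] [CompactSpace K] [T2Space K] (j : X → K)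
    (hj : Topology.IsInducing j) (hG : IsGδ (range j)) : ∃ S : Set X, S.Countable ∧ Dense S := by
  classical
  by_contra hsep
  push Not at hsep
  have hX : Nonempty X := by
    by_contra h
    rw [not_nonempty_iff] at h
    exact hsep ∅ countable_empty fun x => (h.false x).elim
  -- local bases
  have hB : ∀ x : X, ∃ B : ℕ → Set X, (∀ n, IsOpen (B n)) ∧ (∀ n, x ∈ B n) ∧
      ∀ U ∈ nhds x, ∃ n, B n ⊆ U := by
    intro x
    obtain ⟨b, hb⟩ := (nhds x).exists_antitone_basis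
    refine ⟨fun n => interior (b n), fun n => isOpen_interior, fun n => ?_, fun U hU => ?_⟩
    · exact mem_interior_iff_mem_nhds.2 (hb.mem n)
    · obtain ⟨n, hn⟩ := hb.mem_iff.1 hU
      exact ⟨n, interior_subset.trans hn⟩
  choose B hBo hBx hBU using hB
  -- the index set
  let ι : Type u := (Cardinal.aleph 1 : Cardinal.{u}).ord.ToType
  have hι : ∀ β : ι, (Iio β).Countable := by
    intro β
    have h1 : Cardinal.mk (Iio β) < Cardinal.aleph 1 := mk_Iio_lt_aleph β
    rw [← Cardinal.le_aleph0_iff_set_countable, ← Order.lt_succ_iff, Cardinal.succ_aleph0]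
    exact h1
  have hunc : ¬ (Set.univ : Set ι).Countable := by
    rw [← Cardinal.le_aleph0_iff_set_countable, Cardinal.mk_univ, Cardinal.mk_ord_toType, not_le]
    exact Cardinal.aleph0_lt_aleph_one
  let D : Set X := ⋃ α : ι, DD B α
  have hND : ∀ β : ι, NN B (DD B β) ⊆ D := by
    intro β
    obtain ⟨γ, -, hγ⟩ := exists_gt_of_countable hι hunc (countable_singleton β)
    exact (NN_subset_DD B (hγ β rfl)).trans (subset_iUnion (fun α : ι => DD B α) γ)
  have hDpk : ∀ d ∈ D, ∀ d' ∈ D, ∀ n n', pk (B d n ∩ B d' n') ∈ D := by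
    intro d hd d' hd' n n'
    obtain ⟨α, hα⟩ := mem_iUnion.1 hd
    obtain ⟨α', hα'⟩ := mem_iUnion.1 hd'
    exact hND (max α α') (pk_mem_NN' (DD_mono B (le_max_left _ _) hα)
      (DD_mono B (le_max_right _ _) hα') n n')
  let x0 : ι → X := fun α => pk (closure (DD B α))ᶜ
  have hx0 : ∀ α, x0 α ∉ closure (DD B α) := by
    intro α
    refine pk_mem (s := (closure (DD B α))ᶜ) ?_
    rw [nonempty_compl]
    intro h
    exact hsep _ (DD_countable B hι α) (dense_iff_closure_eq.2 h)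
  have hx0D : ∀ α, x0 α ∈ D := fun α => hND α (pk_mem_NN _)
  -- the partial order
  let P : Type u := {V : Opens K // ∃ d ∈ D, j d ∈ V}
  have hPne : Nonempty P := by
    obtain ⟨γ, -⟩ : (Set.univ : Set ι).Nonempty := by
      by_contra h
      rw [not_nonempty_iff_eq_empty] at h
      exact hunc (h ▸ countable_empty)
    exact ⟨⟨⊤, x0 γ, hx0D γ, trivial⟩⟩
  have hccc : ∀ S : Set P, ¬ S.Countable → ∃ r ∈ S, ∃ s ∈ S, r ≠ s ∧ ∃ q, q ≤ r ∧ q ≤ s := by
    intro S hS
    by_contra hcon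
    push Not at hcon
    have h1 : ∀ V : P, ∃ d ∈ D, ∃ n, B d n ⊆ j ⁻¹' (V.1 : Set K) := by
      intro V
      obtain ⟨d, hd, hdV⟩ := V.2
      obtain ⟨n, hn⟩ := hBU d (j ⁻¹' (V.1 : Set K))
        ((V.1.2.preimage hj.continuous).mem_nhds hdV)
      exact ⟨d, hd, n, hn⟩
    choose dd hdD nn hdn using h1
    have h2 : ∀ V ∈ S, ∀ W ∈ S, V ≠ W → Disjoint (B (dd V) (nn V)) (B (dd W) (nn W)) := by
      intro V hV W hW hne
      rw [Set.disjoint_iff_inter_eq_empty, ← Set.not_nonempty_iff_eq_empty]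
      intro h3
      have h4 := pk_mem h3
      refine hcon V hV W hW hne ⟨V.1 ⊓ W.1, _, hDpk (dd V) (hdD V) (dd W) (hdD W) (nn V) (nn W),
        hdn V h4.1, hdn W h4.2⟩ ?_ ?_
      · exact (inf_le_left : V.1 ⊓ W.1 ≤ V.1)
      · exact (inf_le_right : V.1 ⊓ W.1 ≤ W.1)
    have hinj : InjOn (fun V : P => B (dd V) (nn V)) S := by
      intro V hV W hW h
      by_contra hne
      have h3 := h2 V hV W hW hne
      have h4 : B (dd V) (nn V) = B (dd W) (nn W) := h
      rw [← h4, disjoint_self] at h3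
      have h5 := hBx (dd V) (nn V)
      rw [h3] at h5
      exact h5
    apply hS
    refine countable_of_injective_of_countable_image hinj (hc _ ?_ ?_)
    · rintro _ ⟨V, _, rfl⟩
      exact ⟨hBo _ _, _, hBx _ _⟩
    · rintro _ ⟨V, hV, rfl⟩ _ ⟨W, hW, rfl⟩ hne
      exact h2 V hV W hW fun h => hne (by rw [h])
  obtain ⟨O, hO, hrange⟩ := isGδ_iff_eq_iInter_nat.1 hG
  have hA : ∀ n : ℕ, ∃ A : ℕ → P, (∀ k, closure ((A k).1 : Set K) ⊆ O n) ∧
      ∀ q, ∃ k q', q' ≤ q ∧ q' ≤ A k := by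
    intro n
    refine exists_predense hccc {V : P | closure (V.1 : Set K) ⊆ O n} fun q => ?_
    obtain ⟨d, hd, hdq⟩ := q.2
    have h1 : j d ∈ O n := by
      have h2 : j d ∈ range j := ⟨d, rfl⟩
      rw [hrange] at h2
      exact mem_iInter.1 h2 n
    obtain ⟨V, hV1, hV2, hV3⟩ := normal_exists_closure_subset (isClosed_singleton (x := j d))
      (q.1.2.inter (hO n)) (singleton_subset_iff.2 ⟨hdq, h1⟩)
    refine ⟨⟨⟨V, hV1⟩, d, hd, hV2 rfl⟩, hV3.trans inter_subset_right, ?_⟩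
    show (⟨V, hV1⟩ : Opens K) ≤ q.1
    intro x hx
    exact (hV3 (subset_closure hx)).1
  choose A hAc hAp using hA
  have hV : ∀ α : ι, ∃ V : P, Disjoint (closure (V.1 : Set K)) (closure (j '' DD B α)) := by
    intro α
    have h1 : j (x0 α) ∉ closure (j '' DD B α) := by
      intro h
      apply hx0 α
      rw [hj.closure_eq_preimage_closure_image]
      exact h
    obtain ⟨V, hV1, hV2, hV3⟩ := normal_exists_closure_subset
      (isClosed_singleton (x := j (x0 α))) (isClosed_closure (s := j '' DD B α)).isOpen_compl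
      (singleton_subset_iff.2 h1)
    refine ⟨⟨⟨V, hV1⟩, _, hx0D α, hV2 rfl⟩, ?_⟩
    rw [Set.disjoint_left]
    exact fun x hx => hV3 hx
  choose p hp using hV
  obtain ⟨Y, x, hY, hfil⟩ := exists_filter (A := A) (p := p) T hccc hAp hι hunc
  -- a point in all the closures
  let Tr : {F : Finset ι // (F : Set ι) ⊆ Y} × ℕ → Set K := fun s =>
    {z | (∀ γ ∈ s.1.1, z ∈ closure (((p γ).1 : Set K) ∩ j '' D)) ∧
      ∀ i < s.2, z ∈ closure (((A i (x i)).1 : Set K) ∩ j '' D)}
  have hclosed : ∀ s, IsClosed (Tr s) := by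
    intro s
    have h1 : Tr s = (⋂ γ ∈ s.1.1, closure (((p γ).1 : Set K) ∩ j '' D)) ∩
        ⋂ i, ⋂ _ : i < s.2, closure (((A i (x i)).1 : Set K) ∩ j '' D) := by
      ext z
      simp only [mem_inter_iff, mem_iInter]
      exact Iff.rfl
    rw [h1]
    exact (isClosed_biInter fun _ _ => isClosed_closure).inter
      (isClosed_iInter fun _ => isClosed_iInter fun _ => isClosed_closure)
  have hne : ∀ s, (Tr s).Nonempty := by
    rintro ⟨⟨F, hF⟩, m⟩
    obtain ⟨q, h1, h2⟩ := hfil F hF m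
    obtain ⟨d, hd, hdq⟩ := q.2
    exact ⟨j d, fun γ hγ => subset_closure ⟨h1 γ hγ hdq, d, hd, rfl⟩,
      fun i hi => subset_closure ⟨h2 i hi hdq, d, hd, rfl⟩⟩
  have hdir : Directed (fun a b => b ⊆ a) Tr := by
    rintro ⟨⟨F, hF⟩, m⟩ ⟨⟨F', hF'⟩, m'⟩
    refine ⟨⟨⟨F ∪ F', by
      intro γ hγ
      rcases Finset.mem_union.1 (Finset.mem_coe.1 hγ) with h | h
      · exact hF h
      · exact hF' h⟩, max m m'⟩, ?_, ?_⟩
    · rintro z ⟨h1, h2⟩
      exact ⟨fun γ hγ => h1 γ (Finset.mem_union_left _ hγ), fun i hi =>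
        h2 i (hi.trans_le (le_max_left _ _))⟩
    · rintro z ⟨h1, h2⟩
      exact ⟨fun γ hγ => h1 γ (Finset.mem_union_right _ hγ), fun i hi =>
        h2 i (hi.trans_le (le_max_right _ _))⟩
  have : Nonempty ({F : Finset ι // (F : Set ι) ⊆ Y} × ℕ) := ⟨(⟨∅, by simp⟩, 0)⟩
  obtain ⟨z, hz⟩ := IsCompact.nonempty_iInter_of_directed_nonempty_isCompact_isClosed Tr hdir hne
    (fun s => (hclosed s).isCompact) hclosed
  have hzp : ∀ γ ∈ Y, z ∈ closure (((p γ).1 : Set K) ∩ j '' D) := by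
    intro γ hγ
    exact (mem_iInter.1 hz (⟨{γ}, by simpa using hγ⟩, 0)).1 γ (Finset.mem_singleton_self γ)
  have hzA : ∀ i, z ∈ closure (((A i (x i)).1 : Set K) ∩ j '' D) := by
    intro i
    exact (mem_iInter.1 hz (⟨∅, by simp⟩, i + 1)).2 i (Nat.lt_succ_self i)
  have hzr : z ∈ range j := by
    rw [hrange]
    exact mem_iInter.2 fun n => hAc n (x n) (closure_mono inter_subset_left (hzA n))
  obtain ⟨y, rfl⟩ := hzr
  have hyD : y ∈ closure D := by
    rw [hj.closure_eq_preimage_closure_image]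
    exact closure_mono inter_subset_right (hzA 0)
  have h1 : ∀ n, ∃ α : ι, (B y n ∩ DD B α).Nonempty := by
    intro n
    obtain ⟨w, hw1, hw2⟩ := mem_closure_iff.1 hyD (B y n) (hBo y n) (hBx y n)
    obtain ⟨α, hα⟩ := mem_iUnion.1 hw2
    exact ⟨α, w, hw1, hα⟩
  choose α hα using h1
  obtain ⟨γ, hγY, hγ⟩ := exists_gt_of_countable hι hY (countable_range α)
  have h2 : y ∈ closure (DD B γ) := by
    rw [mem_closure_iff_nhds]
    intro U hU
    obtain ⟨n, hn⟩ := hBU y U hU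
    obtain ⟨w, hw1, hw2⟩ := hα n
    exact ⟨w, hn hw1, DD_mono B (hγ _ ⟨n, rfl⟩).le hw2⟩
  rw [hj.closure_eq_preimage_closure_image] at h2
  exact (Set.disjoint_left.1 (hp γ)) (closure_mono inter_subset_left (hzp γ hγY)) h2

end Pool.Agent.H3R4.Pre
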