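import Mathlib
import Pool.Agent.Helper126.Fact

/-!
# The topological form (TAM) of the precaliber axiom and partial orders
-/

set_option autoImplicit false

namespace Pool.Agent.H3R4.Pre

open Set

universe u

/-- the countable chain condition: every family of pairwise disjoint nonempty open sets is
countable -/
def CCC (X : Type u) [TopologicalSpace X] : Prop :=
  ∀ S : Set (Set X), (∀ U ∈ S, IsOpen U ∧ U.Nonempty) → S.PairwiseDisjoint id → S.Countable

/-- a family of sets is centered if every finite subfamily has nonempty intersection -/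
def Centered {X : Type u} (η : Set (Set X)) : Prop :=
  ∀ F : Set (Set X), F ⊆ η → F.Finite → (⋂₀ F).Nonempty

/-- (TAM): for every Hausdorff space `X` with the countable chain condition, every uncountable
family of nonempty open subsets of `X` has an uncountable centered subfamily -/
def TAM : Prop :=
  ∀ (X : Type u) [TopologicalSpace X] [T2Space X], CCC X →
    ∀ ξ : Set (Set X), (∀ U ∈ ξ, IsOpen U ∧ U.Nonempty) → ¬ ξ.Countable →
      ∃ η : Set (Set X), η ⊆ ξ ∧ ¬ η.Countable ∧ Centered η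

section Poset

variable (R : Type u) [Preorder R]

/-- a finite set of conditions with a common lower bound -/
def LB {R : Type u} [Preorder R] (F : Set R) : Prop := ∃ r, ∀ s ∈ F, r ≤ s

/-- sets all of whose finite subsets have a lower bound -/
def Cen {R : Type u} [Preorder R] (x : Set R) : Prop := ∀ F : Set R, F ⊆ x → F.Finite → LB F

/-- the maximal centered sets of conditions -/
def Pt : Type u := {x : Set R // Maximal (Cen (R := R)) x}

variable {R}

/-- the basic open sets -/
def Bas (r : R) : Set (Pt R) := {x | r ∈ x.1}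

instance : TopologicalSpace (Pt R) := TopologicalSpace.generateFrom (range (Bas (R := R)))

lemma isOpen_Bas (r : R) : IsOpen (Bas r) :=
  TopologicalSpace.isOpen_generateFrom_of_mem ⟨r, rfl⟩

lemma exists_max {x : Set R} (hx : Cen x) : ∃ y : Pt R, x ⊆ y.1 := by
  obtain ⟨y, hy1, hy2⟩ := zorn_subset_nonempty {x : Set R | Cen x} (by
    intro c hc hchain hne
    refine ⟨⋃₀ c, ?_, fun s hs => subset_sUnion_of_mem hs⟩
    intro F hF hfin
    obtain ⟨t, ht, hFt⟩ := hchain.directedOn.exists_mem_subset_of_finite_of_subset_sUnion hne hfin hF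
    exact hc ht F hFt hfin) x hx
  exact ⟨⟨y, hy2⟩, hy1⟩

lemma exists_of_notMem {x : Pt R} {r : R} (hr : r ∉ x.1) :
    ∃ F : Set R, F ⊆ x.1 ∧ F.Finite ∧ ¬ LB (insert r F) := by
  by_contra hc
  push Not at hc
  apply hr
  have h1 : Cen (insert r x.1) := by
    intro F hF hfin
    have h2 : F \ {r} ⊆ x.1 := by
      intro s hs
      rcases hF hs.1 with h | h
      · exact absurd h hs.2
      · exact h
    obtain ⟨q, hq⟩ := hc _ h2 hfin.sdiff
    refine ⟨q, fun s hs => ?_⟩
    by_cases h : s = r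
    · exact hq s (Or.inl h)
    · exact hq s (Or.inr ⟨hs, h⟩)
  exact x.2.2 h1 (subset_insert _ _) (mem_insert _ _)

lemma mem_of_le {x : Pt R} {r s : R} (hr : r ∈ x.1) (h : r ≤ s) : s ∈ x.1 := by
  by_contra hs
  obtain ⟨F, hF, hfin, hn⟩ := exists_of_notMem hs
  apply hn
  obtain ⟨q, hq⟩ := x.2.1 (insert r F) (insert_subset hr hF) (hfin.insert r)
  refine ⟨q, fun t ht => ?_⟩
  rcases ht with rfl | ht
  · exact (hq r (Or.inl rfl)).trans h
  · exact hq t (Or.inr ht)

lemma Bas_nonempty (r : R) : (Bas r).Nonempty := by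
  obtain ⟨y, hy⟩ := exists_max (x := {r}) (by
    intro F hF _
    exact ⟨r, fun s hs => (hF hs).symm.le⟩)
  exact ⟨y, hy rfl⟩

instance : T2Space (Pt R) := by
  refine ⟨fun x y hxy => ?_⟩
  have h1 : ∃ r ∈ x.1, r ∉ y.1 := by
    by_contra hc
    push Not at hc
    exact hxy (Subtype.ext (x.2.eq_of_subset y.2.1 hc))
  obtain ⟨r, hrx, hry⟩ := h1
  obtain ⟨F, hF, hfin, hn⟩ := exists_of_notMem hry
  refine ⟨Bas r, ⋂ s ∈ F, Bas s, isOpen_Bas r, hfin.isOpen_biInter fun s _ => isOpen_Bas s,
    hrx, ?_, ?_⟩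
  · simp only [mem_iInter]
    exact fun s hs => hF hs
  · rw [Set.disjoint_left]
    intro z hz1 hz2
    apply hn
    refine z.2.1 _ (insert_subset hz1 fun s hs => ?_) (hfin.insert r)
    simp only [mem_iInter] at hz2
    exact hz2 s hs

lemma exists_Bas_subset {W : Set (Pt R)} (hW : IsOpen W) (hne : W.Nonempty) :
    ∃ r : R, Bas r ⊆ W := by
  obtain ⟨x, hx⟩ := hne
  obtain ⟨q0, _⟩ := x.2.1 ∅ (empty_subset _) finite_empty
  have : Nonempty R := ⟨q0⟩
  have hb := TopologicalSpace.isTopologicalBasis_of_subbasis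
    (s := range (Bas (R := R))) (t := inferInstanceAs (TopologicalSpace (Pt R))) rfl
  obtain ⟨v, ⟨f, ⟨hf1, hf2⟩, rfl⟩, hxv, hvW⟩ := hb.exists_subset_of_mem_open hx hW
  -- choose representatives
  have h1 : ∀ U ∈ f, ∃ r, Bas r = U := fun U hU => hf2 hU
  choose! g hg using h1
  obtain ⟨q, hq⟩ := x.2.1 (g '' f) (by
    rintro _ ⟨U, hU, rfl⟩
    have h2 : x ∈ U := hxv U hU
    rw [← hg U hU] at h2
    exact h2) (hf1.image g)
  refine ⟨q, fun y hy => hvW fun U hU => ?_⟩
  rw [← hg U hU]
  exact mem_of_le hy (hq _ ⟨U, hU, rfl⟩)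

/-- **(TAM) for partial orders.**  If among uncountably many conditions there are always two
compatible ones, then every uncountable family of conditions has an uncountable centered
subfamily. -/
theorem TAM.poset (T : TAM.{u}) (hccc : ∀ A : Set R, ¬ A.Countable →
      ∃ r ∈ A, ∃ s ∈ A, r ≠ s ∧ ∃ q, q ≤ r ∧ q ≤ s)
    {I : Type*} (f : I → R) (J : Set I) (hJ : ¬ J.Countable) :
    ∃ J' : Set I, J' ⊆ J ∧ ¬ J'.Countable ∧
      ∀ F : Set I, F ⊆ J' → F.Finite → ∃ q, ∀ i ∈ F, q ≤ f i := by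
  obtain ⟨i0, hi0⟩ : J.Nonempty := by
    by_contra h
    rw [not_nonempty_iff_eq_empty] at h
    exact hJ (h ▸ countable_empty)
  have : Nonempty I := ⟨i0⟩
  have : Nonempty R := ⟨f i0⟩
  have hc : CCC (Pt R) := by
    intro S hS hdis
    by_contra hunc
    have h1 : ∀ W ∈ S, ∃ r : R, Bas r ⊆ W := fun W hW => exists_Bas_subset (hS W hW).1 (hS W hW).2
    choose! g hg using h1
    have hinj : InjOn g S := by
      intro W hW W' hW' h
      by_contra hne
      have h2 := hdis hW hW' hne
      obtain ⟨x, hx⟩ := Bas_nonempty (g W)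
      refine (Set.disjoint_left.1 h2) (hg W hW hx) (hg W' hW' ?_)
      rw [← h]; exact hx
    have h2 : ¬ (g '' S).Countable := fun h => hunc (countable_of_injective_of_countable_image hinj h)
    obtain ⟨_, ⟨W, hW, rfl⟩, _, ⟨W', hW', rfl⟩, hne, q, hq, hq'⟩ := hccc _ h2
    have hWW : W ≠ W' := fun h => hne (by rw [h])
    obtain ⟨x, hx⟩ := Bas_nonempty q
    exact (Set.disjoint_left.1 (hdis hW hW' hWW)) (hg W hW (mem_of_le hx hq))
      (hg W' hW' (mem_of_le hx hq'))
  by_cases hcount : ((fun i => Bas (f i)) '' J).Countable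
  · -- an uncountable fibre
    have hne : ∃ U : Set (Pt R), ¬ {i ∈ J | Bas (f i) = U}.Countable := by
      by_contra hcon
      push Not at hcon
      apply hJ
      refine Countable.mono ?_ (hcount.biUnion (t := fun U _ => {i ∈ J | Bas (f i) = U})
        fun U _ => hcon U)
      intro i hi
      exact mem_biUnion ⟨i, hi, rfl⟩ ⟨hi, rfl⟩
    obtain ⟨U, hU⟩ := hne
    refine ⟨_, fun i hi => hi.1, hU, fun F hF hfin => ?_⟩
    have hUne : U.Nonempty := by
      by_contra hcon
      apply hU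
      have : {i ∈ J | Bas (f i) = U} = ∅ := by
        rw [eq_empty_iff_forall_notMem]
        rintro i ⟨_, hi⟩
        apply hcon
        rw [← hi]; exact Bas_nonempty _
      rw [this]; exact countable_empty
    obtain ⟨x, hx⟩ := hUne
    obtain ⟨q, hq⟩ := x.2.1 (f '' F) (by
      rintro _ ⟨i, hi, rfl⟩
      have h2 := (hF hi).2
      rw [← h2] at hx
      exact hx) (hfin.image f)
    exact ⟨q, fun i hi => hq _ ⟨i, hi, rfl⟩⟩
  · obtain ⟨η, hη1, hη2, hη3⟩ := T (Pt R) hc _ (by
      rintro _ ⟨i, _, rfl⟩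
      exact ⟨isOpen_Bas _, Bas_nonempty _⟩) hcount
    have h1 : ∀ U ∈ η, ∃ i, i ∈ J ∧ Bas (f i) = U := fun U hU => hη1 hU
    choose! g hg1 hg2 using h1
    refine ⟨g '' η, ?_, ?_, fun F hF hfin => ?_⟩
    · rintro _ ⟨U, hU, rfl⟩; exact hg1 U hU
    · intro h
      apply hη2
      refine countable_of_injective_of_countable_image ?_ h
      intro U hU U' hU' he
      rw [← hg2 U hU, ← hg2 U' hU', he]
    · obtain ⟨x, hx⟩ := hη3 ((fun i => Bas (f i)) '' F) (by
        rintro _ ⟨i, hi, rfl⟩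
        obtain ⟨U, hU, rfl⟩ := hF hi
        show Bas (f (g U)) ∈ η
        rw [hg2 U hU]; exact hU) (hfin.image _)
      obtain ⟨q, hq⟩ := x.2.1 (f '' F) (by
        rintro _ ⟨i, hi, rfl⟩
        exact hx _ ⟨i, hi, rfl⟩) (hfin.image f)
      exact ⟨q, fun i hi => hq _ ⟨i, hi, rfl⟩⟩

end Poset

end Pool.Agent.H3R4.Pre
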